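import Pool.Agent.Lib.MP_919a9a_lc.CH

/-!
# Under CH there is an entangled set of reals which is a homogeneous space
-/

set_option autoImplicit false

namespace Pool.Agent.Results.MP_919a9a_lc.HomogeneousEntangledCH

open Cardinal

/-- A set `E` of reals is `(κ, k)`-entangled: `E` has at least `κ` elements, and for every family
`F` of `κ` many `k`-tuples of elements of `E`, each tuple with pairwise distinct entries and
distinct tuples sharing no entries, and for every type `t : Fin k → Fin 2`, there are distinct
`a, b ∈ F` such that `a i < b i` exactly when `t i = 0`. -/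
def IsTupleEntangled (κ : Cardinal.{0}) (k : ℕ) (E : Set ℝ) : Prop :=
  κ ≤ #E ∧
  ∀ F : Set (Fin k → ℝ), #F = κ →
    (∀ a ∈ F, (∀ i, a i ∈ E) ∧ Function.Injective a) →
    (∀ a ∈ F, ∀ b ∈ F, a ≠ b → ∀ i j, a i ≠ b j) →
    ∀ t : Fin k → Fin 2, ∃ a ∈ F, ∃ b ∈ F, a ≠ b ∧ ∀ i, (a i < b i ↔ t i = 0)

/-- A set of reals is entangled if it is `(ℵ₁, k)`-entangled for every `k ≥ 1`. -/
def IsEntangled (E : Set ℝ) : Prop := ∀ k : ℕ, 1 ≤ k → IsTupleEntangled ℵ₁ k E

/-- A topological space is homogeneous if any point can be mapped to any other point by a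
homeomorphism of the space onto itself. -/
def IsHomogeneous (X : Type) [TopologicalSpace X] : Prop := ∀ x y : X, ∃ h : X ≃ₜ X, h x = y

/-- The continuum hypothesis implies that there is an entangled set of reals which, with its
subspace topology, is a homogeneous space. -/
theorem result : 𝔠 = (ℵ₁ : Cardinal.{0}) → ∃ E : Set ℝ, IsEntangled E ∧ IsHomogeneous E := by
  intro CH
  obtain ⟨e, he⟩ := Lib.MP_919a9a_lc.exists_generic CH
  refine ⟨Lib.MP_919a9a_lc.realSet e, ?_, ?_⟩
  · intro k hk
    constructor
    · have h1 := Lib.MP_919a9a_lc.realSet_uncountable Lib.MP_919a9a_lc.Idx_Iic he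
        Lib.MP_919a9a_lc.Idx_uncountable
      rw [← Cardinal.le_aleph0_iff_set_countable, not_le] at h1
      rw [← Cardinal.succ_aleph0]
      exact Order.succ_le_of_lt h1
    · intro F hF h1 h2 t
      have hun : ¬ F.Countable := by
        rw [← Cardinal.le_aleph0_iff_set_countable, not_le, hF]
        exact Cardinal.aleph0_lt_aleph_one
      obtain ⟨a, ha, b, hb, hab, h3⟩ := Lib.MP_919a9a_lc.entangled_main
        Lib.MP_919a9a_lc.Idx_Iic he (by omega) F hun
        (fun a ha => ⟨(h1 a ha).2, (h1 a ha).1⟩) h2 (fun i => decide (t i ≠ 0))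
      refine ⟨a, ha, b, hb, hab, fun i => ?_⟩
      constructor
      · intro hlt
        by_contra hne
        exact lt_asymm hlt ((h3 i).2 (decide_eq_true hne))
      · intro ht
        apply (h3 i).1
        simp [ht]
  · intro x y
    exact Lib.MP_919a9a_lc.realSet_homogeneous e x y

end Pool.Agent.Results.MP_919a9a_lc.HomogeneousEntangledCH
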